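import Mathlib

namespace Pool.Agent.Results.MP_207d4d_co.NotUnimodal

/-- A finite graph with loops and multiple edges allowed, on the vertex set `Fin n`:
`mult x y` is the number of edges joining `x` and `y` (for `x = y`, the number of loops at `x`). -/
structure MGraph where
  n : ℕ
  mult : Fin n → Fin n → ℕ
  symm : ∀ x y, mult x y = mult y x

/-- `H` and `G` are isomorphic. -/
def MGraph.Iso (H G : MGraph) : Prop :=
  ∃ f : Fin H.n → Fin G.n, Function.Bijective f ∧ ∀ x y, G.mult (f x) (f y) = H.mult x y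

/-- `H` is isomorphic to an induced subgraph of `G`. -/
def MGraph.Emb (H G : MGraph) : Prop :=
  ∃ f : Fin H.n → Fin G.n, Function.Injective f ∧ ∀ x y, G.mult (f x) (f y) = H.mult x y

/-- The simple graph recording which distinct vertices are joined by an edge. -/
def MGraph.toSimple (G : MGraph) : SimpleGraph (Fin G.n) where
  Adj x y := x ≠ y ∧ 0 < G.mult x y
  symm := ⟨fun x y h => ⟨h.1.symm, by rw [G.symm y x]; exact h.2⟩⟩
  loopless := ⟨fun x h => h.1 rfl⟩

/-- `G` is connected. -/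
def MGraph.Conn (G : MGraph) : Prop := G.toSimple.Connected

theorem MGraph.Iso.refl (G : MGraph) : G.Iso G := ⟨id, Function.bijective_id, fun _ _ => rfl⟩

theorem MGraph.Iso.symm {H G : MGraph} (h : H.Iso G) : G.Iso H := by
  obtain ⟨f, hf, h⟩ := h
  let e := Equiv.ofBijective f hf
  refine ⟨e.symm, e.symm.bijective, fun x y => ?_⟩
  have := h (e.symm x) (e.symm y)
  have hx : f (e.symm x) = x := e.apply_symm_apply x
  have hy : f (e.symm y) = y := e.apply_symm_apply y
  rw [hx, hy] at this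
  exact this.symm

theorem MGraph.Iso.trans {H G K : MGraph} (h : H.Iso G) (h' : G.Iso K) : H.Iso K := by
  obtain ⟨f, hf, h⟩ := h
  obtain ⟨g, hg, h'⟩ := h'
  exact ⟨g ∘ f, hg.comp hf, fun x y => by simp [h, h']⟩

theorem MGraph.Iso.emb {H G : MGraph} (h : H.Iso G) : H.Emb G := by
  obtain ⟨f, hf, h⟩ := h
  exact ⟨f, hf.1, h⟩

theorem MGraph.Emb.trans {H G K : MGraph} (h : H.Emb G) (h' : G.Emb K) : H.Emb K := by
  obtain ⟨f, hf, h⟩ := h
  obtain ⟨g, hg, h'⟩ := h'
  exact ⟨g ∘ f, hg.comp hf, fun x y => by simp [h, h']⟩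

theorem MGraph.Iso.n_eq {H G : MGraph} (h : H.Iso G) : H.n = G.n := by
  obtain ⟨f, hf, _⟩ := h
  simpa using Fintype.card_of_bijective hf

theorem MGraph.Iso.conn {H G : MGraph} (h : H.Iso G) (hc : H.Conn) : G.Conn := by
  obtain ⟨f, hf, h⟩ := h
  let e : H.toSimple ≃g G.toSimple :=
    { Equiv.ofBijective f hf with
      map_rel_iff' := by
        intro a b
        show (f a ≠ f b ∧ 0 < G.mult (f a) (f b)) ↔ (a ≠ b ∧ 0 < H.mult a b)
        rw [h a b, hf.1.ne_iff] }
  exact e.connected_iff.mp hc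

/-- Isomorphism of graphs, as a setoid. -/
def isoSetoid : Setoid MGraph where
  r := MGraph.Iso
  iseqv := ⟨MGraph.Iso.refl, MGraph.Iso.symm, MGraph.Iso.trans⟩

/-- The unlabelled graphs: isomorphism classes of finite graphs with loops and multiple edges. -/
def UGraph : Type := Quotient isoSetoid

/-- The unlabelled graph of a graph. -/
def toU (G : MGraph) : UGraph := Quotient.mk isoSetoid G

/-- The order of the poset of unlabelled graphs: `H ≤ G` if and only if `H` is isomorphic to an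
induced subgraph of `G`. -/
def UGraph.Le : UGraph → UGraph → Prop :=
  Quotient.lift₂ (s₁ := isoSetoid) (s₂ := isoSetoid) MGraph.Emb (by
    intro a₁ b₁ a₂ b₂ (h1 : a₁.Iso a₂) (h2 : b₁.Iso b₂)
    exact propext ⟨fun h => (h1.symm.emb.trans h).trans h2.emb,
      fun h => (h1.emb.trans h).trans h2.symm.emb⟩)

/-- The number of vertices of an unlabelled graph. -/
def UGraph.size : UGraph → ℕ :=
  Quotient.lift (s := isoSetoid) MGraph.n (fun _ _ h => MGraph.Iso.n_eq h)

/-- An unlabelled graph is connected. -/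
def UGraph.Connected : UGraph → Prop :=
  Quotient.lift (s := isoSetoid) MGraph.Conn
    (fun _ _ h => propext ⟨MGraph.Iso.conn h, MGraph.Iso.conn (MGraph.Iso.symm h)⟩)

/-- The interval `[H, G]` in the poset of all unlabelled graphs. -/
def interval (H G : UGraph) : Set UGraph := {K | H.Le K ∧ K.Le G}

/-- The interval `[H, G]ᶜ` in the poset of all connected unlabelled graphs. -/
def cinterval (H G : UGraph) : Set UGraph := {K | K.Connected ∧ H.Le K ∧ K.Le G}

/-- The rank number `r_k`: the number of elements of `I` with `|H| + k` vertices. -/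
noncomputable def rk (H : UGraph) (I : Set UGraph) (k : ℕ) : ℕ :=
  {K | K ∈ I ∧ K.size = H.size + k}.ncard

/-- The sequence `r 0, ..., r N` is unimodal. -/
def Unimodal (r : ℕ → ℕ) (N : ℕ) : Prop :=
  ∃ m, m ≤ N ∧ (∀ i, i < m → r i ≤ r (i + 1)) ∧ (∀ i, m ≤ i → i < N → r (i + 1) ≤ r i)

/-! ### Induced subgraphs -/

/-- The graph pulled back along a map of vertex sets. -/
def sub (G : MGraph) {k : ℕ} (f : Fin k → Fin G.n) : MGraph where
  n := k
  mult i j := G.mult (f i) (f j)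
  symm _ _ := G.symm _ _

theorem sub_emb (G : MGraph) {k : ℕ} (f : Fin k → Fin G.n) (hf : Function.Injective f) :
    (sub G f).Emb G := ⟨f, hf, fun _ _ => rfl⟩

theorem toU_eq {H G : MGraph} (h : H.Iso G) : toU H = toU G := Quotient.sound (s := isoSetoid) h

theorem iso_of_toU_eq {H G : MGraph} (h : toU H = toU G) : H.Iso G :=
  Quotient.exact (s := isoSetoid) h

/-- Two embeddings with the same range give isomorphic induced subgraphs. -/
theorem sub_iso_of_range (G : MGraph) {k : ℕ} (f g : Fin k → Fin G.n)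
    (hf : Function.Injective f)
    (h : Set.range f = Set.range g) : (sub G f).Iso (sub G g) := by
  have key : ∀ i, ∃ j, g j = f i := fun i => by
    have : f i ∈ Set.range g := h ▸ ⟨i, rfl⟩
    exact this
  choose φ hφ using key
  have hinj : Function.Injective φ := by
    intro a b hab
    apply hf
    rw [← hφ a, ← hφ b, hab]
  exact ⟨φ, Finite.injective_iff_bijective.mp hinj, fun x y =>
    congrArg₂ G.mult (hφ x) (hφ y)⟩

/-- Every element below `G` with `k` vertices is the class of an induced subgraph. -/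
theorem exists_sub {G : MGraph} {K : UGraph} (h : K.Le (toU G)) {k : ℕ} (hk : K.size = k) :
    ∃ f : Fin k → Fin G.n, Function.Injective f ∧ K = toU (sub G f) := by
  induction K using Quotient.ind with
  | _ K =>
    change K.Emb G at h
    change K.n = k at hk
    subst hk
    obtain ⟨f, hf, hm⟩ := h
    refine ⟨f, hf, toU_eq ⟨id, Function.bijective_id, fun x y => ?_⟩⟩
    exact hm x y

theorem finite_below (G : MGraph) (k : ℕ) : {K : UGraph | K.Le (toU G) ∧ K.size = k}.Finite := by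
  refine (Set.finite_range (fun f : Fin k → Fin G.n => toU (sub G f))).subset ?_
  rintro K ⟨h1, h2⟩
  obtain ⟨f, _, rfl⟩ := exists_sub h1 h2
  exact ⟨f, rfl⟩

/-- An isomorphism invariant: the sum of the squares of the row sums. -/
def q (K : MGraph) : ℕ := ∑ i, (∑ j, K.mult i j) ^ 2

theorem q_iso {H K : MGraph} (h : H.Iso K) : q H = q K := by
  obtain ⟨f, hf, h⟩ := h
  let e := Equiv.ofBijective f hf
  unfold q
  rw [← Equiv.sum_comp e]
  refine Finset.sum_congr rfl fun i _ => ?_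
  rw [← Equiv.sum_comp e]
  congr 1
  refine Finset.sum_congr rfl fun j _ => ?_
  exact (h i j).symm

/-- The one-vertex graph without loops. -/
def K1 : MGraph := ⟨1, fun _ _ => 0, fun _ _ => rfl⟩

theorem K1_emb (K : MGraph) (x : Fin K.n) (h : K.mult x x = 0) : K1.Emb K :=
  ⟨fun _ => x, fun a b _ => Subsingleton.elim (α := Fin 1) a b, fun _ _ => h⟩

theorem size_K1 : (toU K1).size = 1 := rfl

theorem conn_K1 : K1.Conn := by
  have : Subsingleton (Fin K1.n) := inferInstanceAs (Subsingleton (Fin 1))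
  have : Nonempty (Fin K1.n) := ⟨(0 : Fin 1)⟩
  exact ⟨fun x y => by rw [Subsingleton.elim x y]⟩

/-- A graph in which each vertex but the first is joined to an earlier one is connected. -/
theorem conn_of_order (K : MGraph) (m : ℕ) (hn : K.n = m + 1)
    (h : ∀ j : Fin K.n, 0 < j.val → ∃ i : Fin K.n, i < j ∧ 0 < K.mult i j) : K.Conn := by
  have key : ∀ v : ℕ, ∀ hv : v < K.n, K.toSimple.Reachable ⟨0, by omega⟩ ⟨v, hv⟩ := by
    intro v
    induction v using Nat.strong_induction_on with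
    | _ v ih =>
      intro hv
      rcases Nat.eq_zero_or_pos v with h0 | h0
      · subst h0; exact SimpleGraph.Reachable.refl _
      · obtain ⟨i, hi, hm⟩ := h ⟨v, hv⟩ h0
        have h1 := ih i.val hi i.isLt
        refine h1.trans (SimpleGraph.Adj.reachable ?_)
        exact ⟨fun hh => by
          have h2 : i.val = v := congrArg Fin.val hh
          have h3 : i.val < v := hi
          omega, hm⟩
  have : Nonempty (Fin K.n) := ⟨⟨0, by omega⟩⟩
  exact ⟨fun x y => (key x.val x.isLt).symm.trans (key y.val y.isLt)⟩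

/-- A connected graph with at least two vertices has no isolated vertex. -/
theorem no_isolated (K : MGraph) (hc : K.Conn) (v w : Fin K.n) (hvw : v ≠ w) :
    ∃ u, 0 < K.mult v u := by
  obtain ⟨p⟩ := hc.preconnected v w
  cases p with
  | nil => exact absurd rfl hvw
  | cons h _ => exact ⟨_, h.2⟩

/-! ### The two graphs -/

/-- The edge list of the graph used for the poset of all graphs. -/
def E8 : List (ℕ × ℕ) := [(0, 3), (0, 6), (0, 7), (1, 2), (1, 6), (1, 7), (2, 4), (2, 5), (3, 4),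
  (3, 5), (4, 6), (4, 7), (5, 6), (5, 7)]

/-- The edge list of the graph used for the poset of connected graphs. -/
def E7 : List (ℕ × ℕ) := [(0, 5), (0, 6), (1, 4), (1, 6), (2, 4), (2, 5), (3, 4), (3, 5), (3, 6)]

/-- The adjacency matrix of an edge list. -/
def adjM (E : List (ℕ × ℕ)) (n : ℕ) (x y : Fin n) : ℕ :=
  if (x.val, y.val) ∈ E ∨ (y.val, x.val) ∈ E then 1 else 0

theorem adjM_symm (E : List (ℕ × ℕ)) (n : ℕ) (x y : Fin n) : adjM E n x y = adjM E n y x := by
  unfold adjM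
  simp only [or_comm]

/-- The graph on eight vertices. -/
def G8 : MGraph := ⟨8, adjM E8 8, adjM_symm E8 8⟩

/-- The graph on seven vertices. -/
def G7 : MGraph := ⟨7, adjM E7 7, adjM_symm E7 7⟩

def a84 : Fin 6 → Fin 4 → Fin 8 := ![![0, 1, 2, 3], ![0, 1, 2, 4], ![0, 6, 1, 2], ![0, 1, 4, 5], ![0, 6, 1, 4], ![0, 6, 1, 7]]
def a85 : Fin 5 → Fin 5 → Fin 8 := ![![0, 3, 4, 2, 1], ![0, 1, 2, 4, 5], ![0, 6, 1, 2, 4], ![0, 6, 1, 4, 5], ![0, 6, 1, 4, 7]]
def a86 : Fin 6 → Fin 6 → Fin 8 := ![![0, 3, 4, 2, 1, 5], ![0, 3, 4, 2, 1, 6], ![0, 6, 1, 2, 4, 5], ![0, 6, 1, 2, 4, 7], ![0, 6, 1, 4, 5, 7], ![0, 3, 4, 5, 6, 7]]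
def a74 : Fin 3 → Fin 4 → Fin 7 := ![![0, 6, 1, 3], ![0, 6, 1, 4], ![0, 5, 3, 6]]
def a75 : Fin 2 → Fin 5 → Fin 7 := ![![0, 5, 2, 4, 1], ![0, 6, 1, 3, 4]]
def a76 : Fin 3 → Fin 6 → Fin 7 := ![![0, 5, 2, 3, 4, 1], ![0, 5, 2, 4, 1, 6], ![0, 5, 3, 4, 1, 6]]

def t8 : Fin 56 → Fin 5 → Fin 8 :=
  ![![0, 3, 4, 2, 1],
    ![0, 3, 5, 2, 1],
    ![2, 1, 6, 0, 3],
    ![2, 1, 7, 0, 3],
    ![0, 1, 2, 4, 5],
    ![0, 6, 1, 2, 4],
    ![0, 7, 1, 2, 4],
    ![0, 6, 1, 2, 5],
    ![0, 7, 1, 2, 5],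
    ![2, 1, 6, 0, 7],
    ![1, 0, 3, 4, 5],
    ![1, 6, 0, 3, 4],
    ![1, 7, 0, 3, 4],
    ![1, 6, 0, 3, 5],
    ![1, 7, 0, 3, 5],
    ![3, 0, 6, 1, 7],
    ![0, 6, 1, 4, 5],
    ![0, 7, 1, 4, 5],
    ![0, 6, 1, 4, 7],
    ![0, 6, 1, 5, 7],
    ![0, 3, 4, 2, 5],
    ![2, 4, 3, 0, 6],
    ![2, 4, 3, 0, 7],
    ![2, 5, 3, 0, 6],
    ![2, 5, 3, 0, 7],
    ![2, 3, 0, 6, 7],
    ![0, 6, 4, 2, 5],
    ![0, 7, 4, 2, 5],
    ![2, 4, 6, 0, 7],
    ![2, 5, 6, 0, 7],
    ![0, 3, 4, 5, 6],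
    ![0, 3, 4, 5, 7],
    ![3, 0, 6, 7, 4],
    ![3, 0, 6, 7, 5],
    ![0, 6, 4, 5, 7],
    ![1, 2, 4, 3, 5],
    ![3, 4, 2, 1, 6],
    ![3, 4, 2, 1, 7],
    ![3, 5, 2, 1, 6],
    ![3, 5, 2, 1, 7],
    ![3, 2, 1, 6, 7],
    ![1, 2, 4, 5, 6],
    ![1, 2, 4, 5, 7],
    ![2, 1, 6, 7, 4],
    ![2, 1, 6, 7, 5],
    ![1, 6, 4, 3, 5],
    ![1, 7, 4, 3, 5],
    ![3, 4, 6, 1, 7],
    ![3, 5, 6, 1, 7],
    ![1, 6, 4, 5, 7],
    ![2, 4, 3, 6, 5],
    ![2, 4, 3, 7, 5],
    ![2, 4, 3, 6, 7],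
    ![2, 5, 3, 6, 7],
    ![2, 4, 6, 7, 5],
    ![3, 4, 6, 7, 5]]
def i8 : Fin 56 → Fin 5 := ![0, 0, 0, 0, 1, 2, 2, 2, 2, 2, 1, 2, 2, 2, 2, 2, 3, 3, 4, 4, 2, 2, 2, 2, 2, 1, 2, 2, 2, 2, 4, 4, 4, 4, 4, 2, 2, 2, 2, 2, 1, 4, 4, 4, 4, 2, 2, 2, 2, 4, 4, 4, 3, 3, 4, 4]
def t7 : Fin 18 → Fin 5 → Fin 7 :=
  ![![0, 5, 2, 4, 1],
    ![0, 6, 1, 4, 2],
    ![1, 6, 0, 5, 2],
    ![0, 5, 3, 4, 1],
    ![0, 6, 1, 3, 4],
    ![1, 6, 0, 3, 5],
    ![4, 1, 6, 0, 5],
    ![0, 5, 2, 3, 4],
    ![0, 6, 3, 4, 2],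
    ![2, 5, 0, 3, 6],
    ![4, 2, 5, 0, 6],
    ![4, 3, 5, 6, 0],
    ![1, 4, 2, 3, 5],
    ![2, 4, 1, 3, 6],
    ![1, 6, 3, 5, 2],
    ![5, 2, 4, 1, 6],
    ![5, 3, 4, 6, 1],
    ![6, 3, 4, 5, 2]]
def i7 : Fin 18 → Fin 2 := ![0, 0, 0, 0, 1, 1, 0, 1, 0, 1, 0, 1, 1, 1, 0, 0, 1, 1]

theorem inj84 : ∀ i : Fin 6, Function.Injective (a84 i) := by decide +kernel
theorem inj86 : ∀ i : Fin 6, Function.Injective (a86 i) := by decide +kernel
theorem inj74 : ∀ i : Fin 3, Function.Injective (a74 i) := by decide +kernel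
theorem inj76 : ∀ i : Fin 3, Function.Injective (a76 i) := by decide +kernel
theorem injt8 : ∀ t : Fin 56, Function.Injective (t8 t) := by decide +kernel
theorem injt7 : ∀ t : Fin 18, Function.Injective (t7 t) := by decide +kernel

theorem q84 : Function.Injective fun i : Fin 6 => q (sub G8 (a84 i)) := by decide +kernel
theorem q86 : Function.Injective fun i : Fin 6 => q (sub G8 (a86 i)) := by decide +kernel
theorem q74 : Function.Injective fun i : Fin 3 => q (sub G7 (a74 i)) := by decide +kernel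
theorem q76 : Function.Injective fun i : Fin 3 => q (sub G7 (a76 i)) := by decide +kernel

theorem tab8 : ∀ (t : Fin 56) (x y : Fin 5),
    adjM E8 8 (t8 t x) (t8 t y) = adjM E8 8 (a85 (i8 t) x) (a85 (i8 t) y) := by decide +kernel
theorem tab7 : ∀ (t : Fin 18) (x y : Fin 5),
    adjM E7 7 (t7 t x) (t7 t y) = adjM E7 7 (a75 (i7 t) x) (a75 (i7 t) y) := by decide +kernel

theorem cov8 : ∀ S : Finset (Fin 8), S.card = 5 →
    ∃ t : Fin 56, Finset.univ.image (t8 t) = S := by decide +kernel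
theorem cov7 : ∀ S : Finset (Fin 7), S.card = 5 →
    (∃ t : Fin 18, Finset.univ.image (t7 t) = S) ∨
      ∃ v ∈ S, ∀ w ∈ S, adjM E7 7 v w = 0 := by decide +kernel

theorem ord74 : ∀ (i : Fin 3) (j : Fin 4), 0 < j.val →
    ∃ k : Fin 4, k < j ∧ 0 < adjM E7 7 (a74 i k) (a74 i j) := by decide +kernel
theorem ord76 : ∀ (i : Fin 3) (j : Fin 6), 0 < j.val →
    ∃ k : Fin 6, k < j ∧ 0 < adjM E7 7 (a76 i k) (a76 i j) := by decide +kernel
def o7 : Fin 7 → Fin 7 := ![0, 5, 2, 3, 4, 1, 6]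
theorem ord7 : ∀ j : Fin 7, 0 < j.val →
    ∃ k : Fin 7, k < j ∧ 0 < adjM E7 7 (o7 k) (o7 j) := by decide +kernel

theorem conn_G7 : G7.Conn := by
  have h1 : (sub G7 o7).Conn := conn_of_order _ 6 rfl ord7
  have h2 : (sub G7 o7).Iso G7 := by
    refine ⟨o7, ?_, fun _ _ => rfl⟩
    exact Finite.injective_iff_bijective.mp (by decide +kernel : Function.Injective o7)
  exact h2.conn h1

theorem irr8 : ∀ x : Fin 8, adjM E8 8 x x = 0 := by decide +kernel
theorem irr7 : ∀ x : Fin 7, adjM E7 7 x x = 0 := by decide +kernel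

/-! ### Lower bounds -/

theorem lower (G : MGraph) (hirr : ∀ x, G.mult x x = 0) (P : UGraph → Prop) {N k : ℕ}
    (a : Fin N → Fin (k + 1) → Fin G.n) (hinj : ∀ i, Function.Injective (a i))
    (hq : Function.Injective fun i => q (sub G (a i))) (hP : ∀ i, P (toU (sub G (a i)))) :
    N ≤ {K : UGraph | (P K ∧ (toU K1).Le K ∧ K.Le (toU G)) ∧ K.size = (toU K1).size + k}.ncard := by
  have hfin : {K : UGraph | (P K ∧ (toU K1).Le K ∧ K.Le (toU G)) ∧
      K.size = (toU K1).size + k}.Finite := by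
    refine (finite_below G (1 + k)).subset ?_
    rintro K ⟨⟨_, _, h2⟩, h3⟩
    exact ⟨h2, h3⟩
  have hU : Function.Injective fun i => toU (sub G (a i)) := by
    intro i j hij
    exact hq (q_iso (iso_of_toU_eq hij))
  have hr : (Set.range fun i => toU (sub G (a i))).ncard = N := by
    rw [← Set.image_univ, Set.ncard_image_of_injective _ hU, Set.ncard_univ, Nat.card_fin]
  rw [← hr]
  refine Set.ncard_le_ncard ?_ hfin
  rintro _ ⟨i, rfl⟩
  refine ⟨⟨hP i, ?_, sub_emb G (a i) (hinj i)⟩, ?_⟩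
  · exact K1_emb (sub G (a i)) (0 : Fin (k + 1)) (hirr _)
  · show k + 1 = 1 + k
    omega

/-! ### The main result -/

theorem rk_interval (G : UGraph) (k : ℕ) : rk (toU K1) (interval (toU K1) G) k =
    {K : UGraph | (True ∧ (toU K1).Le K ∧ K.Le G) ∧ K.size = (toU K1).size + k}.ncard := by
  unfold rk interval
  congr 1
  ext K
  simp

theorem range_eq_of_image {n k : ℕ} (f g : Fin k → Fin n)
    (h : Finset.univ.image f = Finset.univ.image g) : Set.range f = Set.range g := by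
  have := congrArg (fun S : Finset (Fin n) => (S : Set (Fin n))) h
  simpa using this

theorem upper8 : rk (toU K1) (interval (toU K1) (toU G8)) 4 ≤ 5 := by
  have hsub : {K : UGraph | K ∈ interval (toU K1) (toU G8) ∧ K.size = (toU K1).size + 4} ⊆
      Set.range fun i : Fin 5 => toU (sub G8 (a85 i)) := by
    rintro K ⟨⟨_, h2⟩, h3⟩
    obtain ⟨f, hf, rfl⟩ := exists_sub (k := 5) h2 h3
    obtain ⟨t, ht⟩ := cov8 (Finset.univ.image f) 
      ((Finset.card_image_of_injective (α := Fin 5) Finset.univ hf).trans (by simp))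
    refine ⟨i8 t, ?_⟩
    have h1 : (sub G8 (t8 t)).Iso (sub G8 f) :=
      sub_iso_of_range G8 _ _ (injt8 t) (range_eq_of_image _ _ ht)
    have h2 : (sub G8 (a85 (i8 t))).Iso (sub G8 (t8 t)) :=
      ⟨id, Function.bijective_id, fun x y => tab8 t x y⟩
    exact toU_eq (h2.trans h1)
  unfold rk
  refine (Set.ncard_le_ncard hsub (Set.finite_range _)).trans ?_
  rw [← Set.image_univ]
  refine (Set.ncard_image_le (Set.toFinite _)).trans ?_
  rw [Set.ncard_univ, Nat.card_fin]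

theorem upper7 : rk (toU K1) (cinterval (toU K1) (toU G7)) 4 ≤ 2 := by
  have hsub : {K : UGraph | K ∈ cinterval (toU K1) (toU G7) ∧ K.size = (toU K1).size + 4} ⊆
      Set.range fun i : Fin 2 => toU (sub G7 (a75 i)) := by
    rintro K ⟨⟨hc, _, h2⟩, h3⟩
    obtain ⟨f, hf, rfl⟩ := exists_sub (k := 5) h2 h3
    have hc' : (sub G7 f).Conn := hc
    rcases cov7 (Finset.univ.image f) 
      ((Finset.card_image_of_injective (α := Fin 5) Finset.univ hf).trans (by simp)) with
      ⟨t, ht⟩ | ⟨v, hv, hw⟩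
    · refine ⟨i7 t, ?_⟩
      have h1 : (sub G7 (t7 t)).Iso (sub G7 f) :=
        sub_iso_of_range G7 _ _ (injt7 t) (range_eq_of_image _ _ ht)
      have h2 : (sub G7 (a75 (i7 t))).Iso (sub G7 (t7 t)) :=
        ⟨id, Function.bijective_id, fun x y => tab7 t x y⟩
      exact toU_eq (h2.trans h1)
    · exfalso
      obtain ⟨i, _, rfl⟩ := Finset.mem_image.mp hv
      obtain ⟨j, hj⟩ := (by decide : ∀ i : Fin 5, ∃ j : Fin 5, i ≠ j) i
      obtain ⟨u, hu⟩ := no_isolated (sub G7 f) hc' i j hj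
      have := hw (f u) (Finset.mem_image.mpr ⟨u, Finset.mem_univ _, rfl⟩)
      change 0 < adjM E7 7 (f i) (f u) at hu
      omega
  unfold rk
  refine (Set.ncard_le_ncard hsub (Set.finite_range _)).trans ?_
  rw [← Set.image_univ]
  refine (Set.ncard_image_le (Set.toFinite _)).trans ?_
  rw [Set.ncard_univ, Nat.card_fin]

theorem not_unimodal_of {r : ℕ → ℕ} {N : ℕ} (hN : 4 < N) (h1 : r 4 < r 3)
    (h2 : r 4 < r 5) : ¬ Unimodal r N := by
  rintro ⟨m, _, ha, hb⟩
  rcases Nat.lt_or_ge 3 m with h | h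
  · exact absurd (ha 3 h) (Nat.not_le.mpr h1)
  · exact absurd (hb 4 (by omega) hN) (Nat.not_le.mpr h2)

/-- **Main theorem.**  Neither statement of the question is true.  There are unlabelled graphs
`H ≤ G` for which the interval `[H, G]` in the poset of all unlabelled graphs is not unimodal, and
there are connected unlabelled graphs `H ≤ G` for which the interval `[H, G]ᶜ` in the poset of
connected unlabelled graphs is not unimodal. -/
theorem result :
    (∃ H G : UGraph, H.Le G ∧ ¬ Unimodal (rk H (interval H G)) (G.size - H.size)) ∧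
    (∃ H G : UGraph, H.Connected ∧ G.Connected ∧ H.Le G ∧
      ¬ Unimodal (rk H (cinterval H G)) (G.size - H.size)) := by
  constructor
  · refine ⟨toU K1, toU G8, K1_emb G8 (0 : Fin 8) (irr8 0), ?_⟩
    have hu := upper8
    have h3 : 6 ≤ rk (toU K1) (interval (toU K1) (toU G8)) 3 := by
      rw [rk_interval]
      exact lower G8 irr8 (fun _ => True) a84 inj84 q84 (fun _ => trivial)
    have h5 : 6 ≤ rk (toU K1) (interval (toU K1) (toU G8)) 5 := by
      rw [rk_interval]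
      exact lower G8 irr8 (fun _ => True) a86 inj86 q86 (fun _ => trivial)
    exact not_unimodal_of (N := 7) (by omega) (by omega) (by omega)
  · refine ⟨toU K1, toU G7, conn_K1, conn_G7, K1_emb G7 (0 : Fin 7) (irr7 0), ?_⟩
    have hu := upper7
    have h3 : 3 ≤ rk (toU K1) (cinterval (toU K1) (toU G7)) 3 :=
      lower G7 irr7 UGraph.Connected a74 inj74 q74
        (fun i => conn_of_order _ 3 rfl (ord74 i))
    have h5 : 3 ≤ rk (toU K1) (cinterval (toU K1) (toU G7)) 5 :=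
      lower G7 irr7 UGraph.Connected a76 inj76 q76
        (fun i => conn_of_order _ 5 rfl (ord76 i))
    exact not_unimodal_of (N := 6) (by omega) (by omega) (by omega)

end Pool.Agent.Results.MP_207d4d_co.NotUnimodal
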